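import Pool.Agent.Lib.MP_a5a771_alT.FI

/-!
# MP_a5a771_al: derived length at most two is determined by the enveloping algebra

Let `F` be a field and let `L`, `H` be Lie algebras over `F` (of any dimension and in any characteristic, neither assumed solvable) whose
universal enveloping algebras are isomorphic as associative `F`-algebras. Then for `k = 0, 1, 2` the `k`-th term of the derived series
of `L` vanishes if and only if the `k`-th term of the derived series of `H` vanishes.

Idea of the proof of the case `k = 2`. Let `U = U(L) = U(H)`, `I` the ideal of `U` generated by all commutators, `ω` the augmentation
ideal (the two isomorphisms can be chosen to have the same augmentation), `A = U / I` (commutative), `V = I / I ω` (a left `A`-module)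
and `M = I / I²` (an `A`-bimodule). By the Poincaré-Birkhoff-Witt theorem each of the two Lie algebras identifies `E = M ⊗_A V` with
`V ⊗_F V`; so `E` carries two flips, `τ₁` from `L` and `τ₂` from `H`. If `L'' = 0` then the multiplication `E → I² / I² ω` kills all
`e - τ₁ e`, since the elements of `L'` commute; and its kernel is contained in the set of all `e - τ₂ e`. One shows that every
`e - τ₂ e` is an `e' - τ₁ e'`, hence is killed too. In characteristic different from `2` this is done by comparing the two flips through
the operators of `A` on the left and in the middle of `E` and an eigenvector argument over the algebraic closure. In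
characteristic `2` these operators show that `τ₁ - τ₂` is killed by the third power of the augmentation ideal of `A`; the torsion
elements of `E` lie in sums of generalised weight spaces, where the two identifications differ by a scalar times a unipotent map.
So `H''` lies in `I² ω`, which means `H'' = [H', H'']`, so `H''` lies in all powers of `I`, and the intersection of the powers of `I`
is zero because `L'' = 0`.
-/

set_option autoImplicit false

namespace Pool.Agent.Results.MP_a5a771_al.Metabelian

universe u v w

attribute [local instance 100] LieRing.ofAssociativeRing

/-- `F`, `L`, `H` as above, `k ≤ 2`: the `k`-th derived algebra of `L` is zero iff the `k`-th derived algebra of `H` is zero. -/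
theorem result {F : Type u} {L : Type v} {H : Type w} [Field F]
    [LieRing L] [LieAlgebra F L] [LieRing H] [LieAlgebra F H]
    (h : Nonempty (UniversalEnvelopingAlgebra F L ≃ₐ[F] UniversalEnvelopingAlgebra F H)) (k : ℕ) (hk : k ≤ 2) :
    LieAlgebra.derivedSeries F L k = ⊥ ↔ LieAlgebra.derivedSeries F H k = ⊥ := by
  obtain ⟨e⟩ := h
  exact ⟨fun hm => EL.low_dir_all e k hk hm, fun hm => EL.low_dir_all e.symm k hk hm⟩

end Pool.Agent.Results.MP_a5a771_al.Metabelian
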