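import Pool.Agent.Lib.MP_a5a771_alC.END
import Pool.Agent.Lib.MP_a5a771_alC.DL

/-!
# MP_a5a771_al: in characteristic zero a finite-dimensional solvable Lie algebra is determined by its enveloping algebra

Let `F` be any field of characteristic `0`, `L` a finite-dimensional solvable Lie algebra over `F` and `H` any Lie algebra over
`F` (no hypothesis on its dimension, `H` is not assumed solvable). Then the associative algebras `U(L)` and `U(H)` are isomorphic
only if the Lie algebras `L` and `H` are isomorphic; in particular `H` is then finite-dimensional and solvable and `L` and `H` have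
the same derived length.

Idea of the proof. `H` is finite-dimensional (growth) and solvable (all simple finite-dimensional modules over the closure are
one-dimensional). Let `n` be the set of the ad-nilpotent elements (an ideal), `W = n / [n, n]`, `t = L / n`, over the algebraic closure.
(1) An ad-locally nilpotent element of `U(L)` is in `F + n U(L)`, an ad-locally finite one in `F + L + n U(L)`: it acts on a vector of `W` of
weight `μ` by `p(t + μ) - p(t)`. So an isomorphism `φ : U(H) → U(L)` which respects the augmentations maps `n_H` into `n_L U(L)`, and
`H` into `L + n_L U(L)`. (2) The twist `n_H → W ⊗ S(t)` of `φ` is constant in `t`: for an eigenvector `Y(t)` of weight `σ` in the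
image, ad-local nilpotency says that the differences of high order of `1 / Y(t + n σ)` are zero, so `1 / Y` and `Y` are polynomials in
`n` and `Y` is constant; for the other vectors one uses that the image is a Lie algebra. (3) So `φ` is the identity on the
associated graded algebra for the filtration `L, n, [n, n], ...`. (4) Gauge lemma: `φ` is lifted to the free algebra as
`exp(ξ)` with a derivation `ξ` whose values on generators have no component in `L` under the canonical projection `U(L) → L`, and by
induction on the filtration the two brackets agree. (5) Everything descends from the closure to `F`.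
-/

set_option autoImplicit false

namespace Pool.Agent.Results.MP_a5a771_al.SolvableDetermined

universe u v w

/-- `F` a field of characteristic `0`, `L` finite-dimensional and solvable, `H` any Lie algebra: `U(L)` and `U(H)` are isomorphic
if and only if `L` and `H` are; and then `H` is solvable, with the same derived length. -/
theorem result {F : Type u} [Field F] [CharZero F] {L : Type v} [LieRing L] [LieAlgebra F L] [Module.Finite F L]
    [LieAlgebra.IsSolvable L] {H : Type w} [LieRing H] [LieAlgebra F H] :
    (Nonempty (UniversalEnvelopingAlgebra F L ≃ₐ[F] UniversalEnvelopingAlgebra F H) ↔ Nonempty (L ≃ₗ⁅F⁆ H)) ∧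
    (Nonempty (UniversalEnvelopingAlgebra F L ≃ₐ[F] UniversalEnvelopingAlgebra F H) →
      LieAlgebra.IsSolvable H ∧ LieAlgebra.derivedLength F L = LieAlgebra.derivedLength F H) := by
  have key : Nonempty (UniversalEnvelopingAlgebra F L ≃ₐ[F] UniversalEnvelopingAlgebra F H) →
      Nonempty (L ≃ₗ⁅F⁆ H) := fun ⟨e⟩ => MP_a5a771_alC.iso_of_uea e.symm
  refine ⟨⟨key, fun ⟨e⟩ => MP_a5a771_alC.uea_of_equiv e⟩, fun h => ?_⟩
  obtain ⟨e⟩ := key h
  exact ⟨MP_a5a771_alC.isSolvable_of_equiv e, MP_a5a771_alC.derivedLength_eq_of_equiv e⟩

end Pool.Agent.Results.MP_a5a771_al.SolvableDetermined
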